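import Mathlib
import Pool.Agent.H330R2.St
import Pool.Agent.H330R2.Tr

/-!
# There is no local lifting compatible with global liftings

Let `F_q` be any finite field, `K = F_q(T)` and `F = K_∞ = F_q((1/T))` (so `F` runs over all
local fields of positive characteristic). For `G = GL₂`, `ρ = id : GL₂(ℂ) → GL₂(ℂ)`, there is no map
`l : Irr(GL₂(F)) → Irr(GL₂(F))` which gives the components at infinity of the global liftings of all
automorphic representations of `GL₂(A_K)`.

Proof. There are two automorphic representations `π₁`, `π₂` of `GL₂(A_K)` with the same component at
infinity (an unramified quadratic twist of the Steinberg representation):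

* `π₁` is a constituent of the representation generated by a degenerate Eisenstein series; its
  components at all finite places are trivial. Its only ramified place is infinity. The trivial
  representation is isobaric and has the same unramified components, so it is a global lifting.
* `π₂` is cuspidal (it belongs to the Kloosterman sheaf), so it is its own lifting.

So `l` would map the same class both to the trivial and to the twisted Steinberg representation.
-/

namespace Pool.Agent.Results.MP_5ae62c_nt.NoLocalLifting

open Pool.Agent.H330R2 (IrrRep Irr)
open Pool.Agent.H330R2.St

/-- Negative answer to the question, for `K = F_q(T)`, the place at infinity, `G = GL₂` and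
`ρ = id`. -/
theorem result (Fq : Type) [Field Fq] [Finite Fq] :
    ¬ ∃ l : Irr (G2 (Kv Fq none)) → Irr (G2 (Kv Fq none)),
      ∀ π Pi : IrrRep (GA Fq), IsAutomorphic π → IsGlobalLifting π Pi →
        ∀ σ τ : IrrRep (G2 (Kv Fq none)), IsLocalComponent π none σ →
          IsLocalComponent Pi none τ → l (Irr.mk σ) = Irr.mk τ :=
  Pool.Agent.H330R2.main_St Fq

end Pool.Agent.Results.MP_5ae62c_nt.NoLocalLifting
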